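import Pool.Agent.Helper34.Cp.Conc

set_option autoImplicit false
set_option linter.unusedVariables false

namespace Pool.Agent.Helper34.Cp

open Topology Filter Polynomial

theorem taylorV (F : ℂ → ℂ) (n : ℕ) (hF : DifferentiableOn ℂ F (V n)) {r : ℝ} (hr0 : 0 < r)
    (hr1 : r < 1) {ε : ℝ} (hε : 0 < ε) : ∃ t : ℂ[X], ∀ u ∈ V n,
    ‖t.eval u - F ((mu n : ℂ) + (r : ℂ) * (u - (mu n : ℂ)))‖ ≤ ε := by
  have hμ := mu_pos n
  set R : ℝ := (1 + r) / 2 * (mu n / 2) with hR
  have hRpos : 0 < R := by positivity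
  have hRlt : R < mu n / 2 := by
    rw [hR]
    have : (1 + r) / 2 < 1 := by linarith
    nlinarith
  have hrR : r * (mu n / 2) < R := by
    rw [hR]
    have : r < (1 + r) / 2 := by linarith
    nlinarith
  lift R to NNReal using hRpos.le with R' hR'
  have hd : DifferentiableOn ℂ F (Metric.closedBall (mu n : ℂ) R') :=
    hF.mono (Metric.closedBall_subset_ball hRlt)
  have hps := hd.hasFPowerSeriesOnBall (by exact_mod_cast hRpos)
  set r' : NNReal := ⟨r * (mu n / 2), by positivity⟩ with hr'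
  have hunif := hps.tendstoUniformlyOn (r' := r') (by
    exact_mod_cast hrR)
  rw [Metric.tendstoUniformlyOn_iff] at hunif
  obtain ⟨m, hm⟩ := (hunif ε hε).exists
  set p := cauchyPowerSeries F (mu n : ℂ) (R' : ℝ) with hp
  refine ⟨∑ k ∈ Finset.range m, C (p.coeff k) * (C (r : ℂ) * (X - C (mu n : ℂ))) ^ k, fun u hu => ?_⟩
  rw [V, Metric.mem_ball, dist_eq_norm] at hu
  have hmem : (r : ℂ) * (u - (mu n : ℂ)) ∈ Metric.ball (0 : ℂ) (r' : ℝ) := by
    rw [mem_ball_zero_iff, norm_mul, Complex.norm_real, Real.norm_eq_abs, abs_of_pos hr0]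
    change r * ‖u - (mu n : ℂ)‖ < r * (mu n / 2)
    gcongr
  have h1 := hm _ hmem
  rw [dist_comm, dist_eq_norm] at h1
  refine le_trans (le_of_eq ?_) h1.le
  congr 1
  congr 1
  rw [FormalMultilinearSeries.partialSum, eval_finsetSum]
  apply Finset.sum_congr rfl
  intro k _
  rw [FormalMultilinearSeries.apply_eq_pow_smul_coeff]
  simp only [eval_mul, eval_C, eval_pow, eval_sub, eval_X, smul_eq_mul]
  ring

/-- radii of the dilations -/
noncomputable def rr (k : ℕ) : ℝ := 1 - 1 / ((k : ℝ) + 2)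

theorem rr_pos (k : ℕ) : 0 < rr k := by
  unfold rr
  have : 1 / ((k : ℝ) + 2) ≤ 1 / 2 := by
    apply one_div_le_one_div_of_le (by norm_num)
    have : (0 : ℝ) ≤ k := Nat.cast_nonneg k
    linarith
  linarith

theorem rr_lt (k : ℕ) : rr k < 1 := by
  unfold rr
  have : 0 < 1 / ((k : ℝ) + 2) := by positivity
  linarith

theorem rr_lim : Tendsto rr atTop (𝓝 1) := by
  unfold rr
  have h1 : Tendsto (fun k : ℕ => 1 / ((k : ℝ) + 2)) atTop (𝓝 0) := by
    have h2 := (tendsto_const_nhds (x := (1 : ℝ))).div_atTop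
      (tendsto_atTop_add_const_right atTop (2 : ℝ) tendsto_natCast_atTop_atTop)
    exact h2
  simpa using h1.const_sub 1

theorem approxV (F : ℂ → ℂ) (hF : ∀ n, DifferentiableOn ℂ F (V n)) (C : ℝ)
    (hC : ∀ n, ∀ u ∈ V n, ‖F u‖ ≤ C) : ∃ (P : ℕ → ℂ[X]) (C' : ℝ),
    (∀ k n, ∀ u ∈ V n, ‖(P k).eval u‖ ≤ C') ∧
      ∀ n, ∀ u ∈ V n, Tendsto (fun k => (P k).eval u) atTop (𝓝 (F u)) := by
  have h1 : ∀ k n : ℕ, ∃ t : ℂ[X], ∀ u ∈ V n,
      ‖t.eval u - F ((mu n : ℂ) + (rr k : ℂ) * (u - (mu n : ℂ)))‖ ≤ 1 / ((k : ℝ) + 1) :=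
    fun k n => taylorV F n (hF n) (rr_pos k) (rr_lt k) (by positivity)
  choose t ht using h1
  have h2 : ∀ k n : ℕ, ∃ B : ℝ, 0 ≤ B ∧ ∀ z : ℂ, ‖z‖ ≤ 1 → ‖(t k n).eval z‖ ≤ B := by
    intro k n
    have hc : IsCompact (Metric.closedBall (0 : ℂ) 1) := isCompact_closedBall _ _
    obtain ⟨C, hC⟩ := hc.exists_bound_of_continuousOn (f := fun z : ℂ => (t k n).eval z)
      (t k n).continuous.continuousOn
    exact ⟨max C 0, le_max_right _ _, fun z hz =>
      (hC z (by rwa [mem_closedBall_zero_iff])).trans (le_max_left _ _)⟩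
  choose B hB0 hB using h2
  set δ : ℕ → ℝ := fun k => 1 / (((k : ℝ) + 1) * (1 + ∑ n ∈ Finset.range (k + 1), B k n)) with hδ
  have hsum0 : ∀ k, 0 ≤ ∑ n ∈ Finset.range (k + 1), B k n := fun k =>
    Finset.sum_nonneg fun n _ => hB0 k n
  have hδpos : ∀ k, 0 < δ k := fun k => by
    have := hsum0 k
    rw [hδ]
    positivity
  have h3 : ∀ k n : ℕ, ∃ P : ℂ[X], ∀ j, ∀ z ∈ V j,
      ‖P.eval z - (if j = n then 1 else 0)‖ ≤ δ k := fun k n => V_app n (δ k) (hδpos k)
  choose ι hι using h3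
  set P : ℕ → ℂ[X] := fun k => ∑ n ∈ Finset.range (k + 1), ι k n * t k n with hP
  -- the basic estimate
  have hest : ∀ k m : ℕ, ∀ u ∈ V m, ‖(P k).eval u - (if m < k + 1 then (t k m).eval u else 0)‖ ≤
      1 / ((k : ℝ) + 1) := by
    intro k m u hu
    have hu1 : ‖u‖ ≤ 1 := by
      have := (V_norm hu).2
      have := mu_le m
      linarith
    have h4 : (P k).eval u - (if m < k + 1 then (t k m).eval u else 0) =
        ∑ n ∈ Finset.range (k + 1),
          ((ι k n).eval u - (if m = n then 1 else 0)) * (t k n).eval u := by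
      rw [hP]
      simp only [eval_finsetSum, eval_mul, sub_mul, ite_mul, one_mul, zero_mul,
        Finset.sum_sub_distrib, Finset.sum_ite_eq, Finset.mem_range]
    rw [h4]
    calc _ ≤ ∑ n ∈ Finset.range (k + 1),
          ‖((ι k n).eval u - (if m = n then 1 else 0)) * (t k n).eval u‖ := norm_sum_le _ _
      _ ≤ ∑ n ∈ Finset.range (k + 1), δ k * B k n := by
          apply Finset.sum_le_sum
          intro n _
          rw [norm_mul]
          have a := hι k n m u hu
          have b := hB k n u hu1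
          have := (hδpos k).le
          gcongr
      _ = δ k * ∑ n ∈ Finset.range (k + 1), B k n := by rw [Finset.mul_sum]
      _ ≤ 1 / ((k : ℝ) + 1) := by
          have := hsum0 k
          rw [hδ]
          simp only
          rw [one_div_mul_eq_div, div_le_div_iff₀ (by positivity) (by positivity)]
          nlinarith [Nat.cast_nonneg (α := ℝ) k]
  have hmemV : ∀ k m : ℕ, ∀ u ∈ V m, (mu m : ℂ) + (rr k : ℂ) * (u - (mu m : ℂ)) ∈ V m := by
    intro k m u hu
    rw [V, Metric.mem_ball, dist_eq_norm] at hu ⊢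
    have : (mu m : ℂ) + (rr k : ℂ) * (u - (mu m : ℂ)) - (mu m : ℂ) =
        (rr k : ℂ) * (u - (mu m : ℂ)) := by ring
    rw [this, norm_mul, Complex.norm_real, Real.norm_eq_abs, abs_of_pos (rr_pos k)]
    have h5 := rr_lt k
    have h6 := norm_nonneg (u - (mu m : ℂ))
    nlinarith [mu_pos m]
  have hk1 : ∀ k : ℕ, 1 / ((k : ℝ) + 1) ≤ 1 := fun k => by
    rw [div_le_one (by positivity)]
    have : (0 : ℝ) ≤ k := Nat.cast_nonneg k
    linarith
  refine ⟨P, |C| + 2, ?_, ?_⟩
  · intro k m u hu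
    have h4 := hest k m u hu
    have h7 : ‖(if m < k + 1 then (t k m).eval u else 0 : ℂ)‖ ≤ |C| + 1 := by
      by_cases hm : m < k + 1
      · simp only [hm, if_true]
        have h5 := ht k m u hu
        have h6 := hC m _ (hmemV k m u hu)
        have h8 : (t k m).eval u = ((t k m).eval u - F ((mu m : ℂ) + (rr k : ℂ) * (u - (mu m : ℂ)))) +
          F ((mu m : ℂ) + (rr k : ℂ) * (u - (mu m : ℂ))) := by ring
        rw [h8]
        calc _ ≤ _ := norm_add_le _ _
          _ ≤ |C| + 1 := by linarith [hk1 k, le_abs_self C]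
      · simp only [hm, if_false, norm_zero]
        positivity
    have h8 : (P k).eval u = ((P k).eval u - (if m < k + 1 then (t k m).eval u else 0)) +
      (if m < k + 1 then (t k m).eval u else 0) := by ring
    rw [h8]
    calc _ ≤ _ := norm_add_le _ _
      _ ≤ |C| + 2 := by linarith [hk1 k]
  · intro m u hu
    have hcont : Tendsto (fun k => F ((mu m : ℂ) + (rr k : ℂ) * (u - (mu m : ℂ)))) atTop
        (𝓝 (F u)) := by
      have hca : ContinuousAt F u := ((hF m) u hu).continuousWithinAt.continuousAt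
        (Metric.isOpen_ball.mem_nhds hu)
      have h5 : Tendsto (fun k => (mu m : ℂ) + (rr k : ℂ) * (u - (mu m : ℂ))) atTop (𝓝 u) := by
        have h6 := (Complex.continuous_ofReal.tendsto 1).comp rr_lim
        have h7 := (h6.mul_const (u - (mu m : ℂ))).const_add (mu m : ℂ)
        simpa [Function.comp_def] using h7
      exact hca.tendsto.comp h5
    rw [Metric.tendsto_atTop] at hcont ⊢
    intro ε hε
    obtain ⟨N1, hN1⟩ := hcont (ε / 4) (by positivity)
    have hlim : Tendsto (fun k : ℕ => 1 / ((k : ℝ) + 1)) atTop (𝓝 0) :=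
      tendsto_one_div_add_atTop_nhds_zero_nat
    obtain ⟨N2, hN2⟩ := Metric.tendsto_atTop.mp hlim (ε / 4) (by positivity)
    refine ⟨max (max N1 N2) m, fun k hk => ?_⟩
    have hkm : m < k + 1 := by
      have : m ≤ k := (le_max_right _ _).trans hk
      omega
    have a := hN1 k ((le_max_left _ _).trans ((le_max_left _ _).trans hk))
    have b := hN2 k ((le_max_right _ _).trans ((le_max_left _ _).trans hk))
    rw [dist_eq_norm] at a ⊢
    rw [dist_zero_right, Real.norm_eq_abs, abs_of_pos (by positivity)] at b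
    have c := hest k m u hu
    simp only [hkm, if_true] at c
    have d := ht k m u hu
    have h8 : (P k).eval u - F u = ((P k).eval u - (t k m).eval u) +
        ((t k m).eval u - F ((mu m : ℂ) + (rr k : ℂ) * (u - (mu m : ℂ)))) +
        (F ((mu m : ℂ) + (rr k : ℂ) * (u - (mu m : ℂ))) - F u) := by ring
    rw [h8]
    calc _ ≤ ‖((P k).eval u - (t k m).eval u) +
        ((t k m).eval u - F ((mu m : ℂ) + (rr k : ℂ) * (u - (mu m : ℂ))))‖ +
        ‖F ((mu m : ℂ) + (rr k : ℂ) * (u - (mu m : ℂ))) - F u‖ := norm_add_le _ _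
      _ ≤ ‖(P k).eval u - (t k m).eval u‖ +
        ‖(t k m).eval u - F ((mu m : ℂ) + (rr k : ℂ) * (u - (mu m : ℂ)))‖ +
        ‖F ((mu m : ℂ) + (rr k : ℂ) * (u - (mu m : ℂ))) - F u‖ := by
          gcongr
          exact norm_add_le _ _
      _ < ε := by linarith

end Pool.Agent.Helper34.Cp
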