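import Pool.Agent.Helper34.Cp.Lev

set_option autoImplicit false
set_option linter.unusedVariables false

namespace Pool.Agent.Helper34.Cp

open MvPolynomial Topology Filter BoundedContinuousFunction

universe u

namespace BSAF

variable {d : ℕ} {Ω : Set (Fin d → ℂ)} {X : Type u} [NormedAddCommGroup X] [NormedSpace ℂ X]
  [CompleteSpace X]

theorem mul_add' (S : BSAF d Ω X) (P Q : MvPolynomial (Fin d) ℂ) (f : X) :
    S.mul (P + Q) f = S.mul P f + S.mul Q f := by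
  apply S.inj
  funext w
  simp only [S.val_mul, map_add, Pi.add_apply]
  ring

theorem mul_sub' (S : BSAF d Ω X) (P Q : MvPolynomial (Fin d) ℂ) (f : X) :
    S.mul (P - Q) f = S.mul P f - S.mul Q f := by
  apply S.inj
  funext w
  simp only [S.val_mul, map_sub, Pi.sub_apply]
  ring

theorem mul_one' (S : BSAF d Ω X) (f : X) : S.mul 1 f = f := by
  apply S.inj
  funext w
  simp only [S.val_mul, map_one, one_mul]

theorem exists_near (S : BSAF d Ω X) {f : X} (hf : S.ShiftCyclic f) (g : X) {ε : ℝ} (hε : 0 < ε) :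
    ∃ P : MvPolynomial (Fin d) ℂ, ‖S.mul P f - g‖ ≤ ε := by
  have hg : g ∈ closure (S.orbit f) := by rw [hf]; exact Set.mem_univ g
  obtain ⟨h, hh, hd⟩ := Metric.mem_closure_iff.mp hg ε hε
  obtain ⟨P, rfl⟩ := (S.mem_orbit_iff _ _).mp hh
  refine ⟨P, ?_⟩
  rw [dist_comm, dist_eq_norm] at hd
  exact hd.le

/-- A criterion for a function not to be cyclic. -/
theorem not_cyclic (S : BSAF d Ω X) (F : X) (w : Fin d → ℂ)
    (hE : ∀ P, ‖eval w P‖ ≤ ‖S.mul P F‖)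
    (hU : ∀ ε : ℝ, 0 < ε → ∃ Q, eval w Q = 1 ∧ ‖S.mul Q S.one‖ ≤ ε) : ¬ S.ShiftCyclic F := by
  intro hc
  -- Step B
  have hB : ∀ η : ℝ, 0 < η → ∃ δ : ℝ, 0 < δ ∧ ∀ P, ‖S.mul P F - S.one‖ ≤ δ →
      ‖eval w P‖ ≤ 2 * η := by
    intro η hη
    obtain ⟨Q, hQ1, hQ2⟩ := hU η hη
    refine ⟨η / (‖S.mul Q‖ + 1), by positivity, fun P hP => ?_⟩
    have h1 : eval w P = eval w (Q * P) := by rw [map_mul, hQ1, one_mul]
    rw [h1]
    refine (hE _).trans ?_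
    rw [← S.mul_mul]
    have h2 : S.mul Q (S.mul P F) = S.mul Q S.one + S.mul Q (S.mul P F - S.one) := by
      rw [map_sub]; abel
    rw [h2]
    have h3 : ‖S.mul Q (S.mul P F - S.one)‖ ≤ η := by
      calc ‖S.mul Q (S.mul P F - S.one)‖ ≤ ‖S.mul Q‖ * ‖S.mul P F - S.one‖ := (S.mul Q).le_opNorm _
        _ ≤ (‖S.mul Q‖ + 1) * (η / (‖S.mul Q‖ + 1)) := by
            gcongr
            linarith
        _ = η := by field_simp
    calc _ ≤ _ := norm_add_le _ _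
      _ ≤ 2 * η := by linarith
  -- Step C
  obtain ⟨Q1, hQ1⟩ := S.exists_near S.cyclic_one F (show (0 : ℝ) < 1 / 8 by norm_num)
  obtain ⟨R, hR⟩ := S.exists_near hc (S.mul Q1 S.one - F) (show (0 : ℝ) < 1 / 8 by norm_num)
  have hR0 : ‖eval w R‖ ≤ 1 / 4 := by
    refine (hE R).trans ?_
    have : S.mul R F = (S.mul R F - (S.mul Q1 S.one - F)) + (S.mul Q1 S.one - F) := by abel
    rw [this]
    calc _ ≤ _ := norm_add_le _ _
      _ ≤ 1 / 4 := by linarith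
  obtain ⟨δ, hδ, hP⟩ := hB (1 / (16 * (‖eval w Q1‖ + 1))) (by positivity)
  have hδ' : 0 < min δ (1 / (8 * (‖S.mul Q1‖ + 1))) := by positivity
  obtain ⟨P, hPn⟩ := S.exists_near hc S.one hδ'
  have h1 := hP P (hPn.trans (min_le_left _ _))
  have h2 := hPn.trans (min_le_right _ _)
  have h3 : ‖eval w (R + 1 - Q1 * P)‖ ≤ 1 / 4 := by
    refine (hE _).trans ?_
    rw [S.mul_sub', S.mul_add', S.mul_one', ← S.mul_mul]
    have h4 : S.mul R F + F - S.mul Q1 (S.mul P F) =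
        (S.mul R F - (S.mul Q1 S.one - F)) - S.mul Q1 (S.mul P F - S.one) := by
      rw [map_sub]; abel
    rw [h4]
    have h5 : ‖S.mul Q1 (S.mul P F - S.one)‖ ≤ 1 / 8 := by
      calc ‖S.mul Q1 (S.mul P F - S.one)‖ ≤ ‖S.mul Q1‖ * ‖S.mul P F - S.one‖ :=
            (S.mul Q1).le_opNorm _
        _ ≤ (‖S.mul Q1‖ + 1) * (1 / (8 * (‖S.mul Q1‖ + 1))) := by
            gcongr
            linarith
        _ = 1 / 8 := by field_simp
    calc _ ≤ _ := norm_sub_le _ _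
      _ ≤ 1 / 4 := by linarith
  rw [map_sub, map_add, map_mul, map_one] at h3
  have h6 : ‖eval w Q1 * eval w P‖ ≤ 1 / 8 := by
    rw [norm_mul]
    calc ‖eval w Q1‖ * ‖eval w P‖ ≤ (‖eval w Q1‖ + 1) * (2 * (1 / (16 * (‖eval w Q1‖ + 1)))) := by
          gcongr
          linarith
      _ = 1 / 8 := by field_simp; norm_num
  have h7 : (1 : ℂ) = (eval w R + 1 - eval w Q1 * eval w P) - eval w R + eval w Q1 * eval w P := by
    ring
  have h8 : ‖(1 : ℂ)‖ ≤ 1 / 4 + 1 / 4 + 1 / 8 := by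
    rw [h7]
    calc _ ≤ ‖(eval w R + 1 - eval w Q1 * eval w P) - eval w R‖ + ‖eval w Q1 * eval w P‖ :=
          norm_add_le _ _
      _ ≤ ‖eval w R + 1 - eval w Q1 * eval w P‖ + ‖eval w R‖ + ‖eval w Q1 * eval w P‖ := by
          gcongr
          exact norm_sub_le _ _
      _ ≤ _ := by linarith
  rw [norm_one] at h8
  norm_num at h8

end BSAF

namespace LData

/-- the marked point of a level -/
def ptL (L : LData) (μ : ℕ → ℂ) (hμ : ∀ k, μ k ∈ L.U k) (k : ℕ) : L.W.Ω :=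
  ⟨fun _ => μ k, ⟨k, hμ k⟩⟩

theorem idx_pt (L : LData) (μ : ℕ → ℂ) (hμ : ∀ k, μ k ∈ L.U k) (k : ℕ) :
    L.idx (L.ptL μ hμ k) = k := L.idx_eq (hμ k)

variable (L1 L2 : LData) (μ : ℕ → ℂ) (hμ : ∀ k, μ k ∈ L1.U k)

/-- the map sending the `k`-th level of the second domain to the `k`-th marked point -/
noncomputable def kap : C(L2.W.Ω, L1.W.Ω) where
  toFun w := L1.ptL μ hμ (L2.idx w)
  continuous_toFun := continuousOn_iff_continuous_domRestrict.mp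
    (L2.cont_idx (fun k => L1.ptL μ hμ k))

/-- the values of an element at the marked points tend to zero (weighted) -/
theorem pt_tendsto (G : L1.W.Sp) :
    Tendsto (fun k => (G : L1.W.Ω →ᵇ ℂ) (L1.ptL μ hμ k)) atTop (𝓝 0) := by
  rw [Metric.tendsto_atTop]
  intro ε hε
  obtain ⟨P, hP⟩ := (L1.W.mem_Sp_iff G).mp G.2 (ε / 4) (by positivity)
  obtain ⟨C, hC0, hC⟩ := L1.W.poly_bdd P
  obtain ⟨N, hN⟩ := Metric.tendsto_atTop.mp L1.c_lim (ε / (4 * (C + 1))) (by positivity)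
  refine ⟨N, fun k hk => ?_⟩
  rw [dist_zero_right]
  have h1 := hP (L1.ptL μ hμ k)
  have h2 := hN k hk
  rw [dist_zero_right, Real.norm_eq_abs, abs_of_pos (L1.c_pos k)] at h2
  have h3 := hC _ (L1.ptL μ hμ k).2
  have h4 : L1.W.wt (L1.ptL μ hμ k) = L1.c k := by
    change L1.c (L1.idx (L1.ptL μ hμ k)) = L1.c k
    rw [idx_pt]
  have h5 : ‖(L1.W.wt (L1.ptL μ hμ k) : ℂ) * eval ((L1.ptL μ hμ k : L1.W.Ω) : Fin 1 → ℂ) P‖ ≤
      ε / 4 := by
    rw [norm_mul, Complex.norm_real, Real.norm_eq_abs, h4, abs_of_pos (L1.c_pos k)]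
    calc L1.c k * ‖eval ((L1.ptL μ hμ k : L1.W.Ω) : Fin 1 → ℂ) P‖
        ≤ ε / (4 * (C + 1)) * (C + 1) := by
          gcongr
          linarith
      _ = ε / 4 := by field_simp
  have h6 : (G : L1.W.Ω →ᵇ ℂ) (L1.ptL μ hμ k) = ((G : L1.W.Ω →ᵇ ℂ) (L1.ptL μ hμ k) -
      (L1.W.wt (L1.ptL μ hμ k) : ℂ) * eval ((L1.ptL μ hμ k : L1.W.Ω) : Fin 1 → ℂ) P) +
      (L1.W.wt (L1.ptL μ hμ k) : ℂ) * eval ((L1.ptL μ hμ k : L1.W.Ω) : Fin 1 → ℂ) P := by ring
  rw [h6]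
  calc _ ≤ _ := norm_add_le _ _
    _ ≤ ε / 4 + ε / 4 := add_le_add h1 h5
    _ < ε := by linarith

/-- composition with `kap`, as an element of the second space -/
theorem comp_mem (G : L1.W.Sp) :
    (G : L1.W.Ω →ᵇ ℂ).compContinuous (kap L1 L2 μ hμ) ∈ L2.W.Sp := by
  have h := L2.stp_mem (fun k => (G : L1.W.Ω →ᵇ ℂ) (L1.ptL μ hμ k)) ‖G‖
    (fun k => (G : L1.W.Ω →ᵇ ℂ).norm_coe_le_norm _) (pt_tendsto L1 μ hμ G)
  exact h

/-- the composition operator -/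
noncomputable def Aop : L1.W.Sp →L[ℂ] L2.W.Sp :=
  LinearMap.mkContinuous
    { toFun := fun G => ⟨(G : L1.W.Ω →ᵇ ℂ).compContinuous (kap L1 L2 μ hμ), comp_mem L1 L2 μ hμ G⟩
      map_add' := fun G H => by
        apply Subtype.ext
        ext w
        rfl
      map_smul' := fun c G => by
        apply Subtype.ext
        ext w
        rfl } 1 (fun G => by
      rw [one_mul]
      change ‖(G : L1.W.Ω →ᵇ ℂ).compContinuous (kap L1 L2 μ hμ)‖ ≤ ‖(G : L1.W.Ω →ᵇ ℂ)‖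
      rw [BoundedContinuousFunction.norm_le (norm_nonneg _)]
      intro w
      exact (G : L1.W.Ω →ᵇ ℂ).norm_coe_le_norm _)

theorem Aop_eq (G : L1.W.Sp) : Aop L1 L2 μ hμ G =
    L2.stpS (fun k => (G : L1.W.Ω →ᵇ ℂ) (L1.ptL μ hμ k)) ‖(G : L1.W.Ω →ᵇ ℂ)‖
    (fun k => (G : L1.W.Ω →ᵇ ℂ).norm_coe_le_norm _) (pt_tendsto L1 μ hμ G) := rfl

include hμ in
/-- The abstract form of the counterexample. -/
theorem not_CP (hc : L1.c = L2.c) (β : ℕ → ℝ) (hβ : ∀ k, 0 < β k) (hβ1 : ∀ k, β k ≤ 6)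
    (hβ0 : Tendsto β atTop (𝓝 0))
    (happ : ∀ (k : ℕ) (ε : ℝ), 0 < ε → ∃ P : Polynomial ℂ, ∀ j, ∀ z ∈ L1.U j,
      ‖P.eval z - (if j = k then 1 else 0)‖ ≤ ε)
    (hcβ : Tendsto (fun k => L1.c k / β k) atTop (𝓝 0))
    (Q : ℕ → Polynomial ℂ) (hQ : ∀ k, ∀ z ∈ L2.U k, ‖(Q k).eval z‖ ≤ 1 / 2)
    (hd : ∀ j k z, ‖(Q j).eval z‖ ≤ 1 / 2 → ‖(Q k).eval z‖ ≤ 1 / 2 → j = k)
    (hE : ∀ (P : MvPolynomial (Fin 1) ℂ) (S : ℝ),
      (∀ k, ∀ z ∈ L2.U k, β k * ‖eval (fun _ : Fin 1 => z) P‖ ≤ S) → ‖eval 0 P‖ ≤ S)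
    (hU : ∀ ε : ℝ, 0 < ε → ∃ P : MvPolynomial (Fin 1) ℂ, eval 0 P = 1 ∧
      ∀ k, ∀ z ∈ L2.U k, L2.c k * ‖eval (fun _ : Fin 1 => z) P‖ ≤ ε) :
    ¬ HasCP.{0, 0} L2.W.bs := by
  intro hCP
  -- the map of maximal domains
  have hlev : ∀ w : L2.W.bs.maxDomain, ∃ k, ∀ (b : ℕ → ℂ) (C : ℝ) (hb : ∀ k, ‖b k‖ ≤ C)
      (h0 : Tendsto b atTop (𝓝 0)), L2.W.bs.ev w (L2.stpS b C hb h0) = b k / (L2.c k : ℂ) :=
    fun w => L2.exists_level Q hQ hd (L2.W.bs.ev_spec w)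
  choose lev hlev using hlev
  set φ : L2.W.bs.maxDomain → L1.W.bs.maxDomain := fun w =>
    ⟨L1.ptL μ hμ (lev w), L1.W.bs.mem_maxDomain _⟩ with hφ
  -- the cyclic function
  have hβC : ∀ k, ‖(β k : ℂ)‖ ≤ 6 := fun k => by
    rw [Complex.norm_real, Real.norm_eq_abs, abs_of_pos (hβ k)]; exact hβ1 k
  have hβT : Tendsto (fun k => (β k : ℂ)) atTop (𝓝 0) := by
    have h := (Complex.continuous_ofReal.tendsto 0).comp hβ0
    simpa [Function.comp_def] using h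
  set f : L1.W.Sp := L1.stpS (fun k => (β k : ℂ)) 6 hβC hβT with hf
  have hAf : Aop L1 L2 μ hμ f = L2.stpS (fun k => (β k : ℂ)) 6 hβC hβT := by
    apply Subtype.ext
    ext w
    change (f : L1.W.Ω →ᵇ ℂ) (L1.ptL μ hμ (L2.idx w)) = (β (L2.idx w) : ℂ)
    rw [hf, stpS_coe, idx_pt]
  have hfc : L1.W.bs.ShiftCyclic f := by
    apply L1.W.bs.cyclic_of_mem (g := L1.W.bs.one) _ L1.W.bs.cyclic_one
    rw [Metric.mem_closure_iff]
    intro ε hε
    -- approximate `c/β` with weights `β`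
    set L3 : LData :=
      { U := L1.U
        isOpen := L1.isOpen
        bdd := L1.bdd
        disj := L1.disj
        c := fun k => β k / 6
        c_pos := fun k => by have := hβ k; positivity
        c_le := fun k => by have := hβ1 k; linarith
        c_lim := by simpa using hβ0.div_const 6
        app := fun k ε hε => by
          obtain ⟨P, hP⟩ := happ k ε hε
          refine ⟨P, fun j z hz => ?_⟩
          have h1 := hP j z hz
          have h2 : β j / 6 ≤ 1 := by have := hβ1 j; linarith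
          have h3 : 0 ≤ β j / 6 := by have := hβ j; positivity
          calc β j / 6 * ‖P.eval z - (if j = k then 1 else 0)‖
              ≤ 1 * ‖P.eval z - (if j = k then 1 else 0)‖ := by gcongr
            _ ≤ ε := by rw [one_mul]; exact h1 } with hL3
    have hc6 : ∀ k, ‖((L1.c k / 6 : ℝ) : ℂ)‖ ≤ 1 := fun k => by
      have h1 := L1.c_pos k
      have h2 := L1.c_le k
      rw [Complex.norm_real, Real.norm_eq_abs, abs_of_pos (by positivity)]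
      linarith
    have hc7 : Tendsto (fun k => ((L1.c k / 6 : ℝ) : ℂ)) atTop (𝓝 0) := by
      have h := (Complex.continuous_ofReal.tendsto 0).comp
        (show Tendsto (fun k => L1.c k / 6) atTop (𝓝 0) by simpa using L1.c_lim.div_const 6)
      simpa [Function.comp_def] using h
    have hmem := L3.stp_mem (fun k => ((L1.c k / 6 : ℝ) : ℂ)) 1 hc6 hc7
    obtain ⟨P, hP⟩ := (L3.W.mem_Sp_iff _).mp hmem (ε / 12) (by positivity)
    refine ⟨L1.W.bs.mul P f, (L1.W.bs.mem_orbit_iff _ _).mpr ⟨P, rfl⟩, ?_⟩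
    rw [dist_eq_norm]
    refine lt_of_le_of_lt ?_ (half_lt_self hε)
    change ‖((L1.W.bs.one - L1.W.bs.mul P f : L1.W.Sp) : L1.W.Ω →ᵇ ℂ)‖ ≤ ε / 2
    rw [BoundedContinuousFunction.norm_le (by positivity)]
    intro w
    have h1 := hP w
    have h2 : ((L1.W.bs.one - L1.W.bs.mul P f : L1.W.Sp) : L1.W.Ω →ᵇ ℂ) w =
        (L1.c (L1.idx w) : ℂ) - eval (w : Fin 1 → ℂ) P * (β (L1.idx w) : ℂ) := by
      have h3 := L1.coe_mul P f w
      rw [hf, stpS_coe] at h3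
      have h4 : (L1.W.bs.one : L1.W.Ω →ᵇ ℂ) w = (L1.c (L1.idx w) : ℂ) := by
        rw [one_eq, stpS_coe]
      change (L1.W.bs.one : L1.W.Ω →ᵇ ℂ) w - (L1.W.bs.mul P f : L1.W.Ω →ᵇ ℂ) w = _
      rw [h3, h4]
    rw [h2]
    have h5 : (L1.c (L1.idx w) : ℂ) - eval (w : Fin 1 → ℂ) P * (β (L1.idx w) : ℂ) =
        6 * (((L1.c (L1.idx w) / 6 : ℝ) : ℂ) -
          ((β (L1.idx w) / 6 : ℝ) : ℂ) * eval (w : Fin 1 → ℂ) P) := by
      push_cast
      ring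
    rw [h5, norm_mul]
    have h6 : ‖((L1.c (L1.idx w) / 6 : ℝ) : ℂ) -
          ((β (L1.idx w) / 6 : ℝ) : ℂ) * eval (w : Fin 1 → ℂ) P‖ ≤ ε / 12 := h1
    have h7 : ‖(6 : ℂ)‖ = 6 := by norm_num
    rw [h7]
    linarith
  -- property (CP) would give cyclicity
  have hcond : ∀ (g : L1.W.Sp) (w : L2.W.bs.maxDomain), L2.W.bs.ev w (Aop L1 L2 μ hμ g) =
      L2.W.bs.ev w L2.W.bs.one * L1.W.bs.ev (φ w) g := by
    intro g w
    rw [L2.W.bs.isEval_one (L2.W.bs.ev_spec w), one_mul, Aop_eq, hlev w]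
    have h1 : L1.W.bs.ev (φ w) g = L1.W.bs.val g (L1.ptL μ hμ (lev w)) :=
      L1.W.bs.ev_of_mem _ _
    rw [h1, WData.bs_val]
    have h4 : L1.W.wt (L1.ptL μ hμ (lev w)) = L1.c (lev w) := by
      change L1.c (L1.idx (L1.ptL μ hμ (lev w))) = L1.c (lev w)
      rw [idx_pt]
    rw [h4, hc]
  have hcyc := hCP 1 L1.W.Ω L1.W.Sp L1.W.bs φ L2.W.bs.one (Aop L1 L2 μ hμ) L2.W.bs.cyclic_one
    hcond f hfc
  rw [hAf] at hcyc
  refine L2.W.bs.not_cyclic _ 0 ?_ ?_ hcyc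
  · intro P
    apply hE
    intro k z hz
    have h1 := (L2.W.bs.mul P (L2.stpS (fun k => (β k : ℂ)) 6 hβC hβT) :
      L2.W.Ω →ᵇ ℂ).norm_coe_le_norm ⟨fun _ => z, ⟨k, hz⟩⟩
    rw [coe_mul, stpS_coe] at h1
    have h2 : L2.idx (fun _ => z) = k := L2.idx_eq hz
    change ‖eval (fun _ : Fin 1 => z) P * ((β (L2.idx (fun _ => z)) : ℝ) : ℂ)‖ ≤ _ at h1
    rw [h2, norm_mul, Complex.norm_real, Real.norm_eq_abs, abs_of_pos (hβ k), mul_comm] at h1
    exact h1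
  · intro ε hε
    obtain ⟨P, hP0, hP⟩ := hU ε hε
    refine ⟨P, hP0, ?_⟩
    change ‖(L2.W.bs.mul P L2.W.bs.one : L2.W.Ω →ᵇ ℂ)‖ ≤ ε
    rw [BoundedContinuousFunction.norm_le hε.le]
    intro w
    rw [coe_mul, one_eq, stpS_coe, norm_mul, Complex.norm_real, Real.norm_eq_abs,
      abs_of_pos (L2.c_pos _), mul_comm]
    have h1 := hP _ _ (L2.mem_idx w.2)
    rw [WData.cst_eq] at h1
    exact h1

end LData

end Pool.Agent.Helper34.Cp
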