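import Mathlib

set_option autoImplicit false

namespace Pool.Agent.Helper34.Cp

open MvPolynomial Topology Filter

universe u v

/-- A Banach space `X` of analytic functions on the open set `Ω ⊂ ℂ^d`: the elements of `X` are
identified (injectively and linearly) with functions on `Ω` by `val`; these are analytic, the
polynomials belong to `X` and are dense, point evaluations at the points of `Ω` are bounded, and
multiplication by each coordinate is a bounded operator. -/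
structure BSAF (d : ℕ) (Ω : Set (Fin d → ℂ)) (X : Type u) [NormedAddCommGroup X]
    [NormedSpace ℂ X] [CompleteSpace X] where
  val : X →ₗ[ℂ] (Ω → ℂ)
  isOpen : IsOpen Ω
  inj : Function.Injective val
  analytic : ∀ f : X, ∃ g : (Fin d → ℂ) → ℂ, AnalyticOnNhd ℂ g Ω ∧ ∀ w : Ω, val f w = g w
  poly : ∀ P : MvPolynomial (Fin d) ℂ, ∃ f : X, ∀ w : Ω, val f w = eval (w : Fin d → ℂ) P
  dense : Dense {f : X | ∃ P : MvPolynomial (Fin d) ℂ, ∀ w : Ω, val f w = eval (w : Fin d → ℂ) P}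
  eval_bdd : ∀ w : Ω, ∃ C : ℝ, ∀ f : X, ‖val f w‖ ≤ C * ‖f‖
  shift : ∀ j : Fin d, ∃ S : X →L[ℂ] X, ∀ (f : X) (w : Ω), val (S f) w = (w : Fin d → ℂ) j * val f w

namespace BSAF

variable {d : ℕ} {Ω : Set (Fin d → ℂ)} {X : Type u} [NormedAddCommGroup X] [NormedSpace ℂ X]
  [CompleteSpace X]

/-- `Λ` is a bounded functional on `X` extending the evaluation of polynomials at `w`. -/
def IsEval (S : BSAF d Ω X) (w : Fin d → ℂ) (Λ : X →L[ℂ] ℂ) : Prop :=
  ∀ (f : X) (P : MvPolynomial (Fin d) ℂ),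
    (∀ u : Ω, S.val f u = eval (u : Fin d → ℂ) P) → Λ f = eval w P

/-- The maximal domain of `X`. -/
def maxDomain (S : BSAF d Ω X) : Set (Fin d → ℂ) := {w | ∃ Λ : X →L[ℂ] ℂ, S.IsEval w Λ}

/-- Evaluation of the elements of `X` at a point of the maximal domain. -/
noncomputable def ev (S : BSAF d Ω X) (w : S.maxDomain) : X →L[ℂ] ℂ := Classical.choose w.2

/-- The set `{P f : P a polynomial}`. -/
def orbit (S : BSAF d Ω X) (f : X) : Set X :=
  {g | ∃ P : MvPolynomial (Fin d) ℂ, ∀ w : Ω, S.val g w = eval (w : Fin d → ℂ) P * S.val f w}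

/-- `f` is shift-cyclic. -/
def ShiftCyclic (S : BSAF d Ω X) (f : X) : Prop := closure (S.orbit f) = Set.univ

end BSAF

/-- Property (CP) of a Banach space `Y` of analytic functions (with structure `T`). -/
def HasCP {d' : ℕ} {Ω' : Set (Fin d' → ℂ)} {Y : Type v} [NormedAddCommGroup Y] [NormedSpace ℂ Y]
    [CompleteSpace Y] (T : BSAF d' Ω' Y) : Prop :=
  ∀ (d : ℕ) (Ω : Set (Fin d → ℂ)) (X : Type u) [NormedAddCommGroup X] [NormedSpace ℂ X]
    [CompleteSpace X] (S : BSAF d Ω X) (φ : T.maxDomain → S.maxDomain) (ψ : Y) (A : X →L[ℂ] Y),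
    T.ShiftCyclic ψ →
    (∀ (f : X) (w : T.maxDomain), T.ev w (A f) = T.ev w ψ * S.ev (φ w) f) →
    ∀ f : X, S.ShiftCyclic f → T.ShiftCyclic (A f)

namespace BSAF

variable {d : ℕ} {Ω : Set (Fin d → ℂ)} {X : Type u} [NormedAddCommGroup X] [NormedSpace ℂ X]
  [CompleteSpace X]

theorem exists_mul (S : BSAF d Ω X) (P : MvPolynomial (Fin d) ℂ) :
    ∃ M : X →L[ℂ] X, ∀ (f : X) (w : Ω), S.val (M f) w = eval (w : Fin d → ℂ) P * S.val f w := by
  induction P using MvPolynomial.induction_on with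
  | C a =>
    refine ⟨a • ContinuousLinearMap.id ℂ X, fun f w => ?_⟩
    simp
  | add p q hp hq =>
    obtain ⟨M, hM⟩ := hp
    obtain ⟨N, hN⟩ := hq
    refine ⟨M + N, fun f w => ?_⟩
    simp [hM, hN, add_mul]
  | mul_X p j hp =>
    obtain ⟨M, hM⟩ := hp
    obtain ⟨N, hN⟩ := S.shift j
    refine ⟨M ∘L N, fun f w => ?_⟩
    simp only [ContinuousLinearMap.comp_apply, hM, hN, map_mul, eval_X]
    ring

/-- multiplication by a polynomial -/
noncomputable def mul (S : BSAF d Ω X) (P : MvPolynomial (Fin d) ℂ) : X →L[ℂ] X :=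
  Classical.choose (S.exists_mul P)

theorem val_mul (S : BSAF d Ω X) (P : MvPolynomial (Fin d) ℂ) (f : X) (w : Ω) :
    S.val (S.mul P f) w = eval (w : Fin d → ℂ) P * S.val f w :=
  Classical.choose_spec (S.exists_mul P) f w

theorem mem_orbit_iff (S : BSAF d Ω X) (f g : X) :
    g ∈ S.orbit f ↔ ∃ P : MvPolynomial (Fin d) ℂ, g = S.mul P f := by
  constructor
  · rintro ⟨P, hP⟩
    refine ⟨P, S.inj ?_⟩
    funext w
    rw [hP, S.val_mul]
  · rintro ⟨P, rfl⟩
    exact ⟨P, fun w => S.val_mul P f w⟩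

/-- the constant function 1 -/
noncomputable def one (S : BSAF d Ω X) : X := Classical.choose (S.poly 1)

theorem val_one (S : BSAF d Ω X) (w : Ω) : S.val S.one w = 1 := by
  have := Classical.choose_spec (S.poly 1) w
  simpa [one] using this

theorem isEval_iff (S : BSAF d Ω X) (w : Fin d → ℂ) (Λ : X →L[ℂ] ℂ) :
    S.IsEval w Λ ↔ ∀ P, Λ (S.mul P S.one) = eval w P := by
  constructor
  · intro h P
    apply h
    intro u
    rw [S.val_mul, S.val_one, mul_one]
  · intro h f P hf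
    rw [← h P]
    congr 1
    apply S.inj
    funext u
    rw [hf, S.val_mul, S.val_one, mul_one]

theorem dense_one (S : BSAF d Ω X) : closure (S.orbit S.one) = Set.univ := by
  rw [← S.dense.closure_eq]
  congr 1
  ext f
  constructor
  · rintro ⟨P, hP⟩
    exact ⟨P, fun w => by rw [hP, S.val_one, mul_one]⟩
  · rintro ⟨P, hP⟩
    exact ⟨P, fun w => by rw [hP, S.val_one, mul_one]⟩

theorem cyclic_one (S : BSAF d Ω X) : S.ShiftCyclic S.one := S.dense_one

theorem induct (S : BSAF d Ω X) (p : X → Prop) (hc : IsClosed {f | p f})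
    (h : ∀ P, p (S.mul P S.one)) (f : X) : p f := by
  have h1 : closure (S.orbit S.one) ⊆ {f | p f} := by
    apply closure_minimal _ hc
    intro g hg
    obtain ⟨P, rfl⟩ := (S.mem_orbit_iff _ _).mp hg
    exact h P
  rw [S.dense_one] at h1
  exact h1 (Set.mem_univ f)

theorem ev_spec (S : BSAF d Ω X) (w : S.maxDomain) : S.IsEval w (S.ev w) :=
  Classical.choose_spec w.2

theorem isEval_unique (S : BSAF d Ω X) {w : Fin d → ℂ} {Λ Λ' : X →L[ℂ] ℂ} (h : S.IsEval w Λ)
    (h' : S.IsEval w Λ') : Λ = Λ' := by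
  ext f
  refine S.induct (fun f => Λ f = Λ' f) (isClosed_eq Λ.continuous Λ'.continuous) ?_ f
  intro P
  rw [(S.isEval_iff w Λ).mp h P, (S.isEval_iff w Λ').mp h' P]

theorem mul_mul (S : BSAF d Ω X) (P Q : MvPolynomial (Fin d) ℂ) (f : X) :
    S.mul P (S.mul Q f) = S.mul (P * Q) f := by
  apply S.inj
  funext w
  simp only [S.val_mul, map_mul]
  ring

theorem isEval_mul (S : BSAF d Ω X) {w : Fin d → ℂ} {Λ : X →L[ℂ] ℂ} (h : S.IsEval w Λ)
    (P : MvPolynomial (Fin d) ℂ) (f : X) : Λ (S.mul P f) = eval w P * Λ f := by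
  refine S.induct (fun f => Λ (S.mul P f) = eval w P * Λ f)
    (isClosed_eq (Λ.continuous.comp (S.mul P).continuous)
      (continuous_const.mul Λ.continuous)) ?_ f
  intro Q
  rw [S.mul_mul, (S.isEval_iff w Λ).mp h, (S.isEval_iff w Λ).mp h, map_mul]

theorem isEval_one (S : BSAF d Ω X) {w : Fin d → ℂ} {Λ : X →L[ℂ] ℂ} (h : S.IsEval w Λ) :
    Λ S.one = 1 := by
  have := h S.one 1 (fun u => by rw [S.val_one, map_one])
  simpa using this

/-- evaluation at a point of `Ω` -/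
noncomputable def evΩ (S : BSAF d Ω X) (w : Ω) : X →L[ℂ] ℂ :=
  LinearMap.mkContinuous
    { toFun := fun f => S.val f w
      map_add' := fun f g => by simp
      map_smul' := fun c f => by simp } (Classical.choose (S.eval_bdd w))
    (Classical.choose_spec (S.eval_bdd w))

theorem evΩ_apply (S : BSAF d Ω X) (w : Ω) (f : X) : S.evΩ w f = S.val f w := rfl

theorem isEval_evΩ (S : BSAF d Ω X) (w : Ω) : S.IsEval w (S.evΩ w) := by
  intro f P h
  rw [evΩ_apply, h]

theorem mem_maxDomain (S : BSAF d Ω X) (w : Ω) : (w : Fin d → ℂ) ∈ S.maxDomain :=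
  ⟨_, S.isEval_evΩ w⟩

theorem ev_of_mem (S : BSAF d Ω X) (w : Ω) (f : X) :
    S.ev ⟨w, S.mem_maxDomain w⟩ f = S.val f w := by
  have h := S.isEval_unique (S.ev_spec ⟨w, S.mem_maxDomain w⟩) (S.isEval_evΩ w)
  rw [h, evΩ_apply]

theorem cyclic_ne_zero (S : BSAF d Ω X) {f : X} (hf : S.ShiftCyclic f) {w : Fin d → ℂ}
    {Λ : X →L[ℂ] ℂ} (h : S.IsEval w Λ) : Λ f ≠ 0 := by
  intro h0
  have h1 : closure (S.orbit f) ⊆ {g | Λ g = 0} := by
    apply closure_minimal _ (isClosed_eq Λ.continuous continuous_const)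
    intro g hg
    obtain ⟨P, rfl⟩ := (S.mem_orbit_iff _ _).mp hg
    rw [Set.mem_ofPred_eq, S.isEval_mul h, h0, mul_zero]
  rw [hf] at h1
  have h2 : Λ S.one = 0 := h1 (Set.mem_univ _)
  rw [S.isEval_one h] at h2
  exact one_ne_zero h2

theorem mul_mem_closure (S : BSAF d Ω X) {f g : X} (hg : g ∈ closure (S.orbit f))
    (P : MvPolynomial (Fin d) ℂ) : S.mul P g ∈ closure (S.orbit f) := by
  have h1 : Set.MapsTo (S.mul P) (S.orbit f) (S.orbit f) := by
    intro h hh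
    obtain ⟨Q, rfl⟩ := (S.mem_orbit_iff _ _).mp hh
    rw [S.mul_mul]
    exact (S.mem_orbit_iff _ _).mpr ⟨_, rfl⟩
  exact h1.closure (S.mul P).continuous hg

theorem cyclic_of_mem (S : BSAF d Ω X) {f g : X} (hg : g ∈ closure (S.orbit f))
    (hc : S.ShiftCyclic g) : S.ShiftCyclic f := by
  have h1 : closure (S.orbit g) ⊆ closure (S.orbit f) := by
    apply closure_minimal _ isClosed_closure
    intro h hh
    obtain ⟨Q, rfl⟩ := (S.mem_orbit_iff _ _).mp hh
    exact S.mul_mem_closure hg Q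
  rw [hc] at h1
  exact Set.eq_univ_of_univ_subset h1

/-- the coordinates are bounded on the maximal domain -/
theorem maxDomain_bdd (S : BSAF d Ω X) (P : MvPolynomial (Fin d) ℂ) :
    ∃ C : ℝ, ∀ w ∈ S.maxDomain, ‖eval w P‖ ≤ C := by
  refine ⟨‖S.mul P‖, ?_⟩
  rintro w ⟨Λ, hΛ⟩
  have hne : Λ ≠ 0 := by
    intro h0
    have := S.isEval_one hΛ
    rw [h0] at this
    simp at this
  have h1 : ‖(eval w P) • Λ‖ ≤ ‖Λ‖ * ‖S.mul P‖ := by
    apply ContinuousLinearMap.opNorm_le_bound _ (by positivity)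
    intro f
    have h2 : ((eval w P) • Λ) f = Λ (S.mul P f) := by
      rw [S.isEval_mul hΛ]; simp
    rw [h2]
    calc ‖Λ (S.mul P f)‖ ≤ ‖Λ‖ * ‖S.mul P f‖ := Λ.le_opNorm _
      _ ≤ ‖Λ‖ * (‖S.mul P‖ * ‖f‖) := by gcongr; exact (S.mul P).le_opNorm _
      _ = ‖Λ‖ * ‖S.mul P‖ * ‖f‖ := by ring
  rw [norm_smul] at h1
  have hpos : 0 < ‖Λ‖ := norm_pos_iff.mpr hne
  have h3 : ‖eval w P‖ * ‖Λ‖ ≤ ‖S.mul P‖ * ‖Λ‖ := by linarith [mul_comm ‖Λ‖ ‖S.mul P‖]
  exact le_of_mul_le_mul_right h3 hpos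

end BSAF

end Pool.Agent.Helper34.Cp
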