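import Pool.Agent.Helper34.Cp.Conc

set_option autoImplicit false
set_option linter.unusedVariables false

namespace Pool.Agent.Helper34.Cp

open Topology Filter Polynomial

/-- radii -/
noncomputable def rho (k : ℕ) : ℝ := 1 - (1 / 2) ^ (k + 1)

/-- exponents -/
def NN (k : ℕ) : ℕ := 4 ^ (k + 2)

theorem rho_ge (k : ℕ) : 1 / 2 ≤ rho k := by
  unfold rho
  have : (1 / 2 : ℝ) ^ (k + 1) ≤ (1 / 2) ^ 1 :=
    pow_le_pow_of_le_one (by norm_num) (by norm_num) (by omega)
  linarith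

theorem rho_pos (k : ℕ) : 0 < rho k := by linarith [rho_ge k]

theorem rho_lt (k : ℕ) : rho k < 1 := by
  unfold rho
  have : (0 : ℝ) < (1 / 2) ^ (k + 1) := by positivity
  linarith

theorem rho_mono {j k : ℕ} (h : j ≤ k) : rho j ≤ rho k := by
  unfold rho
  have : (1 / 2 : ℝ) ^ (k + 1) ≤ (1 / 2) ^ (j + 1) :=
    pow_le_pow_of_le_one (by norm_num) (by norm_num) (by omega)
  linarith

theorem NN_pos (k : ℕ) : 0 < NN k := by unfold NN; positivity

theorem growth (k : ℕ) : 5 * rho k ^ NN k ≤ rho (k + 1) ^ NN k := by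
  have h1 : rho (k + 1) = rho k + (1 / 2) ^ (k + 2) := by
    unfold rho
    rw [pow_succ (1 / 2 : ℝ) (k + 1)]
    ring
  have h2 : (1 + (1 / 2 : ℝ) ^ (k + 2)) * rho k ≤ rho (k + 1) := by
    rw [h1]
    have h3 := rho_lt k
    have h4 : (0 : ℝ) < (1 / 2) ^ (k + 2) := by positivity
    nlinarith
  have h3 : (5 : ℝ) ≤ (1 + (1 / 2 : ℝ) ^ (k + 2)) ^ NN k := by
    have h4 := one_add_mul_le_pow (show (-2 : ℝ) ≤ (1 / 2) ^ (k + 2) by
      have : (0 : ℝ) < (1 / 2) ^ (k + 2) := by positivity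
      linarith) (NN k)
    have h5 : (NN k : ℝ) * (1 / 2) ^ (k + 2) = 2 ^ (k + 2) := by
      unfold NN
      push_cast
      rw [← mul_pow]
      norm_num
    have h6 : (4 : ℝ) ≤ 2 ^ (k + 2) := by
      rw [pow_add]
      have : (1 : ℝ) ≤ 2 ^ k := one_le_pow₀ (by norm_num)
      linarith
    linarith
  calc 5 * rho k ^ NN k ≤ (1 + (1 / 2 : ℝ) ^ (k + 2)) ^ NN k * rho k ^ NN k := by
        have := rho_pos k
        gcongr
    _ = ((1 + (1 / 2 : ℝ) ^ (k + 2)) * rho k) ^ NN k := by rw [mul_pow]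
    _ ≤ rho (k + 1) ^ NN k := by
        have := rho_pos k
        gcongr

/-- `(z/ρ_k)^{N_k}` -/
noncomputable def vv (k : ℕ) (z : ℂ) : ℂ := (z / (rho k : ℂ)) ^ NN k

/-- the polynomial `(z/ρ_k)^{N_k} - 1` -/
noncomputable def QP (k : ℕ) : ℂ[X] := C ((rho k : ℂ)⁻¹ ^ NN k) * X ^ NN k - 1

theorem QP_eval (k : ℕ) (z : ℂ) : (QP k).eval z = vv k z - 1 := by
  simp only [QP, vv, eval_sub, eval_mul, eval_C, eval_pow, eval_X, eval_one]
  rw [div_eq_mul_inv, mul_pow, mul_comm]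

/-- the `k`-th level -/
def UU (k : ℕ) : Set ℂ := {z | ‖vv k z - 1‖ < 1 / 2}

theorem norm_vv (k : ℕ) (z : ℂ) : ‖vv k z‖ = (‖z‖ / rho k) ^ NN k := by
  unfold vv
  rw [norm_pow, norm_div, Complex.norm_real, Real.norm_eq_abs, abs_of_pos (rho_pos k)]

theorem vv_cont (k : ℕ) : Continuous (vv k) := by
  unfold vv
  fun_prop

theorem UU_open (k : ℕ) : IsOpen (UU k) :=
  isOpen_lt (continuous_norm.comp ((vv_cont k).sub continuous_const)) continuous_const

theorem vv_le {k : ℕ} {z : ℂ} (h : ‖vv k z - 1‖ ≤ 1 / 2) : ‖vv k z‖ ≤ 3 / 2 := by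
  have h1 : vv k z = (vv k z - 1) + 1 := by ring
  rw [h1]
  calc _ ≤ _ := norm_add_le _ _
    _ ≤ 3 / 2 := by rw [norm_one]; linarith

theorem vv_ge {k : ℕ} {z : ℂ} (h : ‖vv k z - 1‖ ≤ 1 / 2) : 1 / 2 ≤ ‖vv k z‖ := by
  have h1 := norm_sub_norm_le (1 : ℂ) (vv k z)
  rw [norm_one, norm_sub_rev] at h1
  linarith

theorem pow_le_of_level {k : ℕ} {z : ℂ} (h : ‖vv k z - 1‖ ≤ 1 / 2) :
    (‖z‖ / rho (k + 1)) ^ NN k ≤ 3 / 10 := by
  have h1 := vv_le h
  rw [norm_vv, div_pow] at h1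
  have h2 := growth k
  have h3 : 0 < rho k ^ NN k := pow_pos (rho_pos k) _
  have h4 : 0 < rho (k + 1) ^ NN k := pow_pos (rho_pos _) _
  rw [div_le_iff₀ h3] at h1
  rw [div_pow, div_le_iff₀ h4]
  linarith

theorem level_norm {k : ℕ} {z : ℂ} (h : ‖vv k z - 1‖ ≤ 1 / 2) : ‖z‖ ≤ rho (k + 1) := by
  by_contra hcon
  push Not at hcon
  have h1 := pow_le_of_level h
  have h2 : 1 ≤ ‖z‖ / rho (k + 1) := (one_le_div (rho_pos _)).mpr hcon.le
  have h3 : 1 ≤ (‖z‖ / rho (k + 1)) ^ NN k := one_le_pow₀ h2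
  linarith

theorem far {j k : ℕ} (hjk : j < k) {z : ℂ} (h : ‖vv j z - 1‖ ≤ 1 / 2) : ‖vv k z‖ ≤ 1 / 16 := by
  have h1 := pow_le_of_level h
  have h2 : (‖z‖ / rho k) ^ NN j ≤ 3 / 10 := by
    refine le_trans ?_ h1
    have := rho_pos (j + 1)
    have := rho_pos k
    have := rho_mono (show j + 1 ≤ k by omega)
    gcongr
  rw [norm_vv]
  have h3 : NN k = NN j * 4 ^ (k - j) := by
    unfold NN
    rw [← pow_add]
    congr 1
    omega
  have h0 : 0 ≤ (‖z‖ / rho k) ^ NN j := by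
    have := rho_pos k
    positivity
  rw [h3, pow_mul]
  calc ((‖z‖ / rho k) ^ NN j) ^ 4 ^ (k - j) ≤ (3 / 10) ^ 4 ^ (k - j) := by gcongr
    _ ≤ (3 / 10) ^ 4 := by
        apply pow_le_pow_of_le_one (by norm_num) (by norm_num)
        calc 4 = 4 ^ 1 := by norm_num
          _ ≤ 4 ^ (k - j) := Nat.pow_le_pow_right (by norm_num) (by omega)
    _ ≤ 1 / 16 := by norm_num

theorem QP_disj (j k : ℕ) (z : ℂ) (h1 : ‖(QP j).eval z‖ ≤ 1 / 2) (h2 : ‖(QP k).eval z‖ ≤ 1 / 2) :
    j = k := by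
  rw [QP_eval] at h1 h2
  by_contra hne
  rcases lt_or_gt_of_ne hne with h | h
  · have a := far h h1
    have b := vv_ge h2
    linarith
  · have a := far h h2
    have b := vv_ge h1
    linarith

theorem QP_level (k : ℕ) (z : ℂ) (hz : z ∈ UU k) : ‖(QP k).eval z‖ ≤ 1 / 2 := by
  rw [QP_eval]
  exact le_of_lt hz

theorem UU_disj (j k : ℕ) (z : ℂ) (h1 : z ∈ UU j) (h2 : z ∈ UU k) : j = k :=
  QP_disj j k z (QP_level j z h1) (QP_level k z h2)

theorem UU_bdd (k : ℕ) (z : ℂ) (hz : z ∈ UU k) : ‖z‖ ≤ 1 :=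
  (level_norm (le_of_lt hz)).trans (rho_lt _).le

theorem vv_zero (k : ℕ) : vv k 0 = 0 := by
  unfold vv
  rw [zero_div]
  exact zero_pow (NN_pos k).ne'

/-! ### The estimate at the origin -/

theorem two_const (k : ℕ) (g : ℂ → ℂ) (hg : Differentiable ℂ g) (s M : ℝ) (hs0 : 0 ≤ s)
    (hM0 : 0 ≤ M) (hM : ∀ z, ‖z‖ ≤ rho (k + 1) → ‖g z‖ ≤ M) (hs : ∀ z ∈ UU k, ‖g z‖ ≤ s) (z : ℂ)
    (hz : ‖z‖ ≤ rho k) : ‖g z‖ ≤ max (6 * s) (M / 2) := by
  by_cases hU : ‖vv k z - 1‖ < 1 / 2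
  · exact (hs z hU).trans ((by linarith : s ≤ 6 * s).trans (le_max_left _ _))
  push Not at hU
  set D : Set ℂ := {z | ‖z‖ < rho (k + 1)} ∩ {z | 1 / 3 < ‖vv k z - 1‖} with hD
  have hcv : Continuous fun z => ‖vv k z - 1‖ :=
    continuous_norm.comp ((vv_cont k).sub continuous_const)
  have hDo : IsOpen D := (isOpen_lt continuous_norm continuous_const).inter
    (isOpen_lt continuous_const hcv)
  have hcl : closure D ⊆ {z | ‖z‖ ≤ rho (k + 1)} ∩ {z | 1 / 3 ≤ ‖vv k z - 1‖} := by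
    apply closure_minimal
    · rintro w ⟨h1, h2⟩
      have h1' : ‖w‖ < rho (k + 1) := h1
      have h2' : (1 / 3 : ℝ) < ‖vv k w - 1‖ := h2
      exact ⟨h1'.le, h2'.le⟩
    · exact (isClosed_le continuous_norm continuous_const).inter
        (isClosed_le continuous_const hcv)
  have hrr : rho k < rho (k + 1) := by
    have h1 : rho (k + 1) = rho k + (1 / 2) ^ (k + 2) := by
      unfold rho
      rw [pow_succ (1 / 2 : ℝ) (k + 1)]
      ring
    have h4 : (0 : ℝ) < (1 / 2) ^ (k + 2) := by positivity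
    linarith
  have hzD : z ∈ D := ⟨lt_of_le_of_lt hz hrr, by
    change 1 / 3 < ‖vv k z - 1‖
    linarith⟩
  set H : ℂ → ℂ := fun w => g w / (vv k w - 1) with hH
  have hdiff : DiffContOnCl ℂ H D := by
    apply DifferentiableOn.diffContOnCl
    intro w hw
    have hw2 := (hcl hw).2
    have hne : vv k w - 1 ≠ 0 := by
      intro h0
      have : (1 / 3 : ℝ) ≤ ‖vv k w - 1‖ := hw2
      rw [h0, norm_zero] at this
      norm_num at this
    have hvd : Differentiable ℂ (vv k) := by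
      unfold vv
      fun_prop
    exact ((hg w).div ((hvd w).sub_const 1) hne).differentiableWithinAt
  have hbd : Bornology.IsBounded D := by
    apply (Metric.isBounded_closedBall (x := (0 : ℂ)) (r := rho (k + 1))).subset
    rintro w ⟨h1, -⟩
    rw [mem_closedBall_zero_iff]
    exact le_of_lt h1
  have hfr : ∀ w ∈ frontier D, ‖H w‖ ≤ max (3 * s) (M / 4) := by
    intro w hw
    have hw1 : w ∈ closure D := frontier_subset_closure hw
    have hw2 : w ∉ D := by
      rw [hDo.frontier_eq] at hw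
      exact hw.2
    obtain ⟨h1, h2⟩ := hcl hw1
    have h1' : ‖w‖ ≤ rho (k + 1) := h1
    have h2' : (1 / 3 : ℝ) ≤ ‖vv k w - 1‖ := h2
    have hpos : 0 < ‖vv k w - 1‖ := by linarith
    rw [hH]
    simp only [norm_div]
    rw [div_le_iff₀ hpos]
    by_cases h3 : ‖w‖ < rho (k + 1)
    · have h4 : ‖vv k w - 1‖ = 1 / 3 := by
        by_contra hne
        exact hw2 ⟨h3, lt_of_le_of_ne h2' (Ne.symm hne)⟩
      have h5 : ‖g w‖ ≤ s := hs w (by
        change ‖vv k w - 1‖ < 1 / 2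
        rw [h4]; norm_num)
      rw [h4]
      have := le_max_left (3 * s) (M / 4)
      linarith
    · push Not at h3
      have h4 : 5 ≤ ‖vv k w‖ := by
        rw [norm_vv, div_pow, le_div_iff₀ (pow_pos (rho_pos k) _)]
        refine (growth k).trans ?_
        have := rho_pos (k + 1)
        gcongr
      have h5 : 4 ≤ ‖vv k w - 1‖ := by
        have := norm_sub_norm_le (vv k w) 1
        rw [norm_one] at this
        linarith
      have h6 := hM w h1'
      have h7 := le_max_right (3 * s) (M / 4)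
      have h8 : 0 ≤ max (3 * s) (M / 4) := le_trans (by positivity) h7
      calc ‖g w‖ ≤ M := h6
        _ ≤ max (3 * s) (M / 4) * 4 := by linarith
        _ ≤ max (3 * s) (M / 4) * ‖vv k w - 1‖ := by gcongr
  have hmain := Complex.norm_le_of_forall_mem_frontier_norm_le hbd hdiff hfr (subset_closure hzD)
  have hne : vv k z - 1 ≠ 0 := by
    intro h0
    rw [h0, norm_zero] at hU
    norm_num at hU
  have hgz : g z = H z * (vv k z - 1) := by
    rw [hH]
    field_simp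
  have hv1 : ‖vv k z - 1‖ ≤ 2 := by
    have h1 : ‖vv k z‖ ≤ 1 := by
      rw [norm_vv]
      apply pow_le_one₀ (by have := rho_pos k; positivity)
      rw [div_le_one (rho_pos k)]
      exact hz
    calc _ ≤ _ := norm_sub_le _ _
      _ ≤ 2 := by rw [norm_one]; linarith
  rw [hgz, norm_mul]
  have h8 : 0 ≤ max (3 * s) (M / 4) := le_trans (by positivity) (le_max_left (3 * s) (M / 4))
  calc ‖H z‖ * ‖vv k z - 1‖ ≤ max (3 * s) (M / 4) * 2 := by gcongr
    _ = max (6 * s) (M / 2) := by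
        rw [max_mul_of_nonneg _ _ (by norm_num)]
        congr 1 <;> ring

/-- weights -/
noncomputable def be (k : ℕ) : ℝ := 6 * (1 / 2) ^ k

theorem be_pos (k : ℕ) : 0 < be k := by unfold be; positivity

theorem origin_est (g : ℂ → ℂ) (hg : Differentiable ℂ g) (M : ℝ)
    (hM : ∀ z, ‖z‖ ≤ 1 → ‖g z‖ ≤ M) (S : ℝ) (hS : ∀ k, ∀ z ∈ UU k, be k * ‖g z‖ ≤ S) :
    ‖g 0‖ ≤ S := by
  have hM0 : 0 ≤ M := (norm_nonneg _).trans (hM 0 (by simp))
  have hS0 : 0 ≤ S := by
    have h1 : (rho 0 : ℂ) ∈ UU 0 := by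
      change ‖vv 0 (rho 0 : ℂ) - 1‖ < 1 / 2
      unfold vv
      rw [div_self (by exact_mod_cast (rho_pos 0).ne')]
      simp
    exact le_trans (mul_nonneg (be_pos 0).le (norm_nonneg _)) (hS 0 _ h1)
  have key : ∀ n k : ℕ, ∀ z, ‖z‖ ≤ rho k → ‖g z‖ ≤ max (2 ^ k * S) ((1 / 2) ^ n * M) := by
    intro n
    induction n with
    | zero =>
      intro k z hz
      rw [pow_zero, one_mul]
      exact (hM z (hz.trans (rho_lt k).le)).trans (le_max_right _ _)
    | succ n ih =>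
      intro k z hz
      have h1 := ih (k + 1)
      have hs : ∀ w ∈ UU k, ‖g w‖ ≤ 2 ^ k * S / 6 := by
        intro w hw
        have h2 := hS k w hw
        unfold be at h2
        have h3 : (0 : ℝ) < 2 ^ k := by positivity
        have h4 : ‖g w‖ = 2 ^ k * (6 * (1 / 2) ^ k * ‖g w‖) / 6 := by
          have : (2 : ℝ) ^ k * (1 / 2) ^ k = 1 := by rw [← mul_pow]; norm_num
          field_simp
          linear_combination (-‖g w‖) * this
        rw [h4]
        gcongr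
      have h2 := two_const k g hg (2 ^ k * S / 6) (max (2 ^ (k + 1) * S) ((1 / 2) ^ n * M))
        (by positivity) (le_trans (by positivity) (le_max_left _ _)) h1 hs z hz
      refine h2.trans ?_
      apply max_le
      · have : 6 * (2 ^ k * S / 6) = 2 ^ k * S := by ring
        rw [this]
        exact le_max_left _ _
      · rw [div_le_iff₀ (by norm_num : (0 : ℝ) < 2)]
        apply max_le
        · calc (2 : ℝ) ^ (k + 1) * S = 2 ^ k * S * 2 := by rw [pow_succ]; ring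
            _ ≤ max (2 ^ k * S) ((1 / 2) ^ (n + 1) * M) * 2 := by
                gcongr
                exact le_max_left _ _
        · calc (1 / 2 : ℝ) ^ n * M = (1 / 2) ^ (n + 1) * M * 2 := by rw [pow_succ]; ring
            _ ≤ max (2 ^ k * S) ((1 / 2) ^ (n + 1) * M) * 2 := by
                gcongr
                exact le_max_right _ _
  by_contra hcon
  push Not at hcon
  have h1 : Tendsto (fun n : ℕ => (1 / 2 : ℝ) ^ n * M) atTop (𝓝 0) := by
    have := (tendsto_pow_atTop_nhds_zero_of_lt_one (by norm_num : (0 : ℝ) ≤ 1 / 2)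
      (by norm_num)).mul_const M
    simpa using this
  have hpos : 0 < ‖g 0‖ := lt_of_le_of_lt hS0 hcon
  obtain ⟨n, hn⟩ := (h1.eventually (gt_mem_nhds hpos)).exists
  have h2 := key n 0 0 (by rw [norm_zero]; exact (rho_pos 0).le)
  rw [pow_zero, one_mul] at h2
  rcases max_choice S ((1 / 2) ^ n * M) with h | h
  · rw [h] at h2; linarith
  · rw [h] at h2; linarith

end Pool.Agent.Helper34.Cp
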