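import Pool.Agent.Helper34.Cp.Conv

set_option autoImplicit false

namespace Pool.Agent.Helper34.Cp

open MvPolynomial Topology Filter

universe u v

/-- Characterisation of property (CP) for modules over the bounded analytic functions. -/
theorem hasCP_iff {d' : ℕ} {Ω' : Set (Fin d' → ℂ)} {Y : Type v} [NormedAddCommGroup Y]
    [NormedSpace ℂ Y] [CompleteSpace Y] (T : BSAF d' Ω' Y) (hT : T.HInfModule) (hbp : T.BPWeak)
    (hgen : GenBy Ω') : HasCP.{v} T ↔ ∀ F : Y, T.MultCyclic F → T.ShiftCyclic F := by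
  constructor
  · intro hCP F hF
    apply shiftCyclic_of_hasCP T hT hbp hgen hCP F
    unfold BSAF.BddCyclic
    rw [← T.mOrbit_eq_bOrbit hT]
    exact hF
  · intro h
    apply hasCP_of_bddCyclic
    intro F hF
    apply h
    unfold BSAF.MultCyclic
    rw [T.mOrbit_eq_bOrbit hT]
    exact hF

/-- If moreover polynomials are boundedly pointwise dense in the bounded analytic functions, then
(CP) holds. -/
theorem hasCP_of_polyDense {d' : ℕ} {Ω' : Set (Fin d' → ℂ)} {Y : Type v} [NormedAddCommGroup Y]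
    [NormedSpace ℂ Y] [CompleteSpace Y] (T : BSAF d' Ω' Y) (hT : T.HInfModule) (hbp : T.BPWeak)
    (hd : ∀ q : (Fin d' → ℂ) → ℂ, AnalyticOnNhd ℂ q Ω' → (∃ C : ℝ, ∀ w ∈ Ω', ‖q w‖ ≤ C) →
      ∃ (P : ℕ → MvPolynomial (Fin d') ℂ) (C : ℝ), (∀ n, ∀ w ∈ Ω', ‖eval w (P n)‖ ≤ C) ∧
        ∀ w ∈ Ω', Tendsto (fun n => eval w (P n)) atTop (𝓝 (q w))) : HasCP.{u} T := by
  apply hasCP_of_bddCyclic
  intro F hF
  have h1 : closure (T.bOrbit F) ⊆ closure (T.orbit F) := by
    apply closure_minimal _ isClosed_closure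
    intro G hG'
    obtain ⟨q, hq1, hq2, hG⟩ := T.bOrbit_spec hG'
    obtain ⟨P, C', hP1, hP2⟩ := hd q hq1 hq2
    have hmult : ∀ n, T.IsMult (fun w : Ω' => eval (w : Fin d' → ℂ) (P n)) := fun n =>
      hT _ (BSAF.analytic_eval (P n) Ω') ⟨C', hP1 n⟩
    set M : Submodule ℂ Y :=
      { carrier := T.orbit F
        add_mem' := by
          rintro a b ⟨P, hP⟩ ⟨Q, hQ⟩
          refine ⟨P + Q, fun w => ?_⟩
          simp only [map_add, Pi.add_apply, hP, hQ]
          ring
        zero_mem' := ⟨0, fun w => by simp⟩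
        smul_mem' := by
          rintro c a ⟨P, hP⟩
          refine ⟨MvPolynomial.C c * P, fun w => ?_⟩
          simp only [map_smul, Pi.smul_apply, smul_eq_mul, hP, map_mul, eval_C]
          ring } with hM
    refine mem_closure_of_weak M (fun n => T.multOp (hmult n) F) G ?_ ?_
    · intro n
      exact ⟨P n, fun w => T.val_multOp (hmult n) F w⟩
    · exact hbp (fun n w => eval w (P n)) q C' F _ G (fun n => BSAF.analytic_eval (P n) Ω') hq1
        hP1 hP2 (fun n w => T.val_multOp (hmult n) F w) hG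
  rw [hF] at h1
  exact Set.eq_univ_of_univ_subset h1

namespace BSAF

variable {d : ℕ} {Ω : Set (Fin d → ℂ)} {X : Type u} [NormedAddCommGroup X] [NormedSpace ℂ X]
  [CompleteSpace X]

/-- In a reflexive space the module property with norm control implies `BPWeak`. -/
theorem bpWeak_of_reflexive (S : BSAF d Ω X)
    (hr : Function.Surjective (NormedSpace.inclusionInDoubleDual ℂ X))
    (K : ℝ) (hK : ∀ (q : (Fin d → ℂ) → ℂ) (C : ℝ), AnalyticOnNhd ℂ q Ω → (∀ w ∈ Ω, ‖q w‖ ≤ C) →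
      ∀ F G : X, (∀ w : Ω, S.val G w = q w * S.val F w) → ‖G‖ ≤ K * C * ‖F‖) : S.BPWeak := by
  intro q q0 C F G G0 hq hq0 hC hlim hG hG0 Λ
  set M : Submodule ℂ (StrongDual ℂ X) := Submodule.span ℂ (Set.range fun w : Ω => S.evΩ w) with hM
  have hmem : Λ ∈ closure (M : Set (StrongDual ℂ X)) := by
    by_contra hcon
    have hconv : Convex ℝ (closure (M : Set (StrongDual ℂ X))) := by
      have : Convex ℝ (M : Set (StrongDual ℂ X)) := (M.restrictScalars ℝ).convex
      exact this.closure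
    obtain ⟨f, u, h1, h2⟩ := RCLike.geometric_hahn_banach_closed_point (𝕜 := ℂ) hconv
      isClosed_closure hcon
    have hf0 : ∀ a ∈ M, f a = 0 := by
      intro a ha
      by_contra hne
      have h3 := h1 ((((|u| + 1 : ℝ) : ℂ) / f a) • a) (subset_closure (M.smul_mem _ ha))
      rw [map_smul, smul_eq_mul, div_mul_cancel₀ _ hne] at h3
      have h4 : RCLike.re (((|u| + 1 : ℝ) : ℂ)) = |u| + 1 := Complex.ofReal_re _
      rw [h4] at h3
      linarith [le_abs_self u]
    obtain ⟨x, hx⟩ := hr f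
    have hx0 : x = 0 := by
      apply S.inj
      funext w
      have h3 := hf0 (S.evΩ w) (Submodule.subset_span ⟨w, rfl⟩)
      rw [← hx, NormedSpace.dual_def] at h3
      rw [map_zero]
      exact h3
    rw [hx0, map_zero] at hx
    have h3 := h1 0 (subset_closure M.zero_mem)
    rw [← hx] at h2 h3
    simp only [ContinuousLinearMap.zero_apply, map_zero] at h2 h3
    linarith
  have hbd : ∀ n, ‖G n‖ ≤ K * C * ‖F‖ := fun n => hK (q n) C (hq n) (hC n) F (G n) (hG n)
  have hspan : ∀ Λ' ∈ M, Tendsto (fun n => Λ' (G n)) atTop (𝓝 (Λ' G0)) := by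
    intro Λ' hΛ'
    induction hΛ' using Submodule.span_induction with
    | mem x hx =>
      obtain ⟨w, rfl⟩ := hx
      change Tendsto (fun n => S.val (G n) w) atTop (𝓝 (S.val G0 w))
      simp_rw [hG, hG0]
      exact (hlim w w.2).mul_const _
    | zero => simp
    | add x y _ _ hx hy => exact hx.add hy
    | smul c x _ hx => exact hx.const_mul c
  rw [Metric.tendsto_atTop]
  intro ε hε
  set R : ℝ := |K * C * ‖F‖| + ‖G0‖ + 1 with hR
  have hRpos : 0 < R := by positivity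
  obtain ⟨Λ', hΛ'M, hΛ'⟩ := Metric.mem_closure_iff.mp hmem (ε / (4 * R)) (by positivity)
  obtain ⟨N, hN⟩ := Metric.tendsto_atTop.mp (hspan Λ' hΛ'M) (ε / 4) (by positivity)
  refine ⟨N, fun n hn => ?_⟩
  have h1 := hN n hn
  rw [dist_eq_norm] at h1 hΛ' ⊢
  have h2 : ‖(Λ - Λ') (G n)‖ ≤ ε / (4 * R) * R := by
    calc ‖(Λ - Λ') (G n)‖ ≤ ‖Λ - Λ'‖ * ‖G n‖ := (Λ - Λ').le_opNorm _
      _ ≤ ε / (4 * R) * R := by
          gcongr
          have := hbd n
          have := le_abs_self (K * C * ‖F‖)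
          have := norm_nonneg G0
          linarith
  have h3 : ‖(Λ - Λ') G0‖ ≤ ε / (4 * R) * R := by
    calc ‖(Λ - Λ') G0‖ ≤ ‖Λ - Λ'‖ * ‖G0‖ := (Λ - Λ').le_opNorm _
      _ ≤ ε / (4 * R) * R := by
          gcongr
          have := abs_nonneg (K * C * ‖F‖)
          linarith
  have h4 : ε / (4 * R) * R = ε / 4 := by field_simp
  rw [h4] at h2 h3
  have h5 : Λ (G n) - Λ G0 = (Λ - Λ') (G n) + (Λ' (G n) - Λ' G0) - (Λ - Λ') G0 := by
    simp only [ContinuousLinearMap.sub_apply]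
    ring
  rw [h5]
  calc _ ≤ ‖(Λ - Λ') (G n) + (Λ' (G n) - Λ' G0)‖ + ‖(Λ - Λ') G0‖ := norm_sub_le _ _
    _ ≤ ‖(Λ - Λ') (G n)‖ + ‖Λ' (G n) - Λ' G0‖ + ‖(Λ - Λ') G0‖ := by
        gcongr
        exact norm_add_le _ _
    _ < ε := by linarith

end BSAF

end Pool.Agent.Helper34.Cp
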