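import Pool.Agent.Helper34.Cp.Approx
import Pool.Agent.Helper34.Cp.Riemann
import Pool.Agent.Helper34.Cp.Main1

set_option autoImplicit false
set_option linter.unusedVariables false

namespace Pool.Agent.Helper34.Cp

open Topology Filter

theorem evalXX (P : Polynomial ℂ) (w : Fin 1 → ℂ) :
    MvPolynomial.eval w (Polynomial.aeval (MvPolynomial.X 0 : MvPolynomial (Fin 1) ℂ) P) =
      P.eval (w 0) := by
  induction P using Polynomial.induction_on' with
  | add p q hp hq => simp [hp, hq]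
  | monomial n a => simp

/-- a differentiable function of one variable, as an analytic function on `ℂ^1` -/
theorem analytic_lift {O : Set ℂ} (hO : IsOpen O) {f : ℂ → ℂ} (hf : DifferentiableOn ℂ f O) :
    AnalyticOnNhd ℂ (fun w : Fin 1 → ℂ => f (w 0)) {w : Fin 1 → ℂ | w 0 ∈ O} := by
  intro w hw
  have h1 : AnalyticAt ℂ f ((ContinuousLinearMap.proj (R := ℂ) (φ := fun _ : Fin 1 => ℂ) 0) w) :=
    hf.analyticOnNhd hO _ hw
  exact h1.comp ((ContinuousLinearMap.proj (R := ℂ) (φ := fun _ : Fin 1 => ℂ) 0).analyticAt w)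

theorem cst_eq' (w : Fin 1 → ℂ) : (fun _ : Fin 1 => w 0) = w := by
  funext i
  rw [Subsingleton.elim i 0]

/-- An open subset of the plane whose components are simply connected carries a univalent
function whose polynomials are boundedly pointwise dense in the bounded analytic functions. -/
theorem genBy_planar (O : Set ℂ) (hO : IsOpen O) (hne : O ≠ Set.univ)
    (hsc : ∀ z ∈ O, IsSimplyConnected (connectedComponentIn O z)) :
    GenBy {w : Fin 1 → ℂ | w 0 ∈ O} := by
  classical
  set D := TopologicalSpace.denseSeq ℂ with hD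
  set comp : ℂ → Set ℂ := fun z => connectedComponentIn O z with hcomp
  have hopen : ∀ z, IsOpen (comp z) := fun z => hO.connectedComponentIn
  have hself : ∀ z ∈ O, z ∈ comp z := fun z hz => mem_connectedComponentIn hz
  have hsub : ∀ z, comp z ⊆ O := fun z => connectedComponentIn_subset O z
  have heq : ∀ {x y : ℂ}, y ∈ comp x → comp x = comp y := fun h => connectedComponentIn_eq h
  have hex : ∀ z ∈ O, ∃ n, D n ∈ comp z := by
    intro z hz
    obtain ⟨n, hn⟩ := (TopologicalSpace.denseRange_denseSeq ℂ).exists_mem_open (hopen z)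
      ⟨z, hself z hz⟩
    exact ⟨n, hn⟩
  set idx : ℂ → ℕ := fun z => if h : ∃ n, D n ∈ comp z then Nat.find h else 0 with hidx
  have hidx_spec : ∀ z ∈ O, D (idx z) ∈ comp z := by
    intro z hz
    have h := hex z hz
    have : idx z = Nat.find h := by rw [hidx]; simp only [h, dif_pos]
    rw [this]
    exact Nat.find_spec h
  have hidx_comp : ∀ {y z : ℂ}, y ∈ comp z → idx y = idx z := by
    intro y z hyz
    have h1 : comp z = comp y := heq hyz
    rw [hidx]
    simp only [h1]
  set I : Set ℕ := {n | ∃ z ∈ O, idx z = n} with hI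
  have hI_comp : ∀ {n : ℕ} {z : ℂ}, z ∈ O → idx z = n → comp (D n) = comp z := by
    intro n z hz hn
    have := hidx_spec z hz
    rw [hn] at this
    exact (heq this).symm
  have hI_D : ∀ {n : ℕ}, n ∈ I → D n ∈ O := by
    rintro n ⟨z, hz, hn⟩
    have := hidx_spec z hz
    rw [hn] at this
    exact hsub z this
  have hI_idx : ∀ {n : ℕ}, n ∈ I → ∀ {z : ℂ}, z ∈ comp (D n) → idx z = n := by
    rintro n ⟨z', hz', hn⟩ z hz
    have h1 := hI_comp hz' hn
    rw [h1] at hz
    rw [hidx_comp hz, hn]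
  -- Riemann maps
  have hRM : ∀ n : ℕ, ∃ g φ : ℂ → ℂ, n ∈ I → DifferentiableOn ℂ g (Metric.ball 0 1) ∧
      Set.MapsTo g (Metric.ball 0 1) (comp (D n)) ∧
      DifferentiableOn ℂ φ (comp (D n)) ∧ Set.MapsTo φ (comp (D n)) (Metric.ball 0 1) ∧
      (∀ z ∈ comp (D n), g (φ z) = z) ∧ (∀ z ∈ Metric.ball (0 : ℂ) 1, φ (g z) = z) := by
    intro n
    by_cases hn : n ∈ I
    · have hDn := hI_D hn
      have hne' : comp (D n) ≠ Set.univ := by
        intro h
        apply hne
        apply Set.eq_univ_of_univ_subset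
        rw [← h]
        exact hsub _
      obtain ⟨g, φ, h1, h2, h3, h4, h5, h6, h7, h8⟩ :=
        CpR.riemann_inv (hopen (D n)) (hsc _ hDn) hne' (hself _ hDn)
      exact ⟨g, φ, fun _ => ⟨h1, h2.mapsTo, h5, h6, h7, h8⟩⟩
    · exact ⟨id, id, fun h => absurd h hn⟩
  choose G Φ hGΦ using hRM
  have hGd : ∀ n ∈ I, DifferentiableOn ℂ (G n) (Metric.ball 0 1) := fun n hn => (hGΦ n hn).1
  have hGm : ∀ n ∈ I, Set.MapsTo (G n) (Metric.ball 0 1) (comp (D n)) :=
    fun n hn => (hGΦ n hn).2.1
  have hΦd : ∀ n ∈ I, DifferentiableOn ℂ (Φ n) (comp (D n)) := fun n hn => (hGΦ n hn).2.2.1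
  have hΦm : ∀ n ∈ I, Set.MapsTo (Φ n) (comp (D n)) (Metric.ball 0 1) :=
    fun n hn => (hGΦ n hn).2.2.2.1
  have hGP : ∀ n ∈ I, ∀ z ∈ comp (D n), G n (Φ n z) = z := fun n hn => (hGΦ n hn).2.2.2.2.1
  have hPG : ∀ n ∈ I, ∀ z ∈ Metric.ball (0 : ℂ) 1, Φ n (G n z) = z :=
    fun n hn => (hGΦ n hn).2.2.2.2.2
  -- the maps
  set h : ℂ → ℂ := fun z => (mu (idx z) : ℂ) + ((mu (idx z) / 2 : ℝ) : ℂ) * Φ (idx z) z with hh
  set lv : ℂ → ℕ := fun u => if h : ∃ k, u ∈ V k then Nat.find h else 0 with hlv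
  have hlv_eq : ∀ {u : ℂ} {k : ℕ}, u ∈ V k → lv u = k := by
    intro u k hu
    have hex : ∃ k, u ∈ V k := ⟨k, hu⟩
    have h1 : lv u = Nat.find hex := by rw [hlv]; simp only [hex, dif_pos]
    rw [h1]
    exact V_disj _ _ u (Nat.find_spec hex) hu
  set sc : ℕ → ℂ → ℂ := fun n u => (u - (mu n : ℂ)) / ((mu n / 2 : ℝ) : ℂ) with hsc'
  set g : ℂ → ℂ := fun u => G (lv u) (sc (lv u) u) with hg
  set O1 : Set ℂ := {u | ∃ n ∈ I, u ∈ V n} with hO1
  have hμne : ∀ n, ((mu n / 2 : ℝ) : ℂ) ≠ 0 := fun n => by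
    have := mu_pos n
    exact_mod_cast (by positivity : mu n / 2 ≠ 0)
  have hsc_mem : ∀ {n : ℕ} {u : ℂ}, u ∈ V n → sc n u ∈ Metric.ball (0 : ℂ) 1 := by
    intro n u hu
    rw [V, Metric.mem_ball, dist_eq_norm] at hu
    have hp := mu_pos n
    rw [mem_ball_zero_iff]
    change ‖(u - (mu n : ℂ)) / ((mu n / 2 : ℝ) : ℂ)‖ < 1
    rw [norm_div, Complex.norm_real, Real.norm_eq_abs,
      abs_of_pos (by positivity : 0 < mu n / 2), div_lt_one (by positivity)]
    exact hu
  have hIidx : ∀ z ∈ O, idx z ∈ I := fun z hz => ⟨z, hz, rfl⟩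
  have hzc : ∀ z ∈ O, z ∈ comp (D (idx z)) := by
    intro z hz
    rw [hI_comp hz rfl]
    exact hself z hz
  have hhV : ∀ z ∈ O, h z ∈ V (idx z) := by
    intro z hz
    have h1 := hΦm _ (hIidx z hz) (hzc z hz)
    rw [mem_ball_zero_iff] at h1
    have hp := mu_pos (idx z)
    rw [V, Metric.mem_ball, dist_eq_norm]
    have h2 : h z - (mu (idx z) : ℂ) = ((mu (idx z) / 2 : ℝ) : ℂ) * Φ (idx z) z := by
      rw [hh]; ring
    rw [h2, norm_mul, Complex.norm_real, Real.norm_eq_abs, abs_of_pos (by positivity)]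
    calc mu (idx z) / 2 * ‖Φ (idx z) z‖ < mu (idx z) / 2 * 1 := by gcongr
      _ = mu (idx z) / 2 := mul_one _
  have hm1 : ∀ z ∈ O, h z ∈ O1 := fun z hz => ⟨idx z, hIidx z hz, hhV z hz⟩
  have hgc : ∀ {n : ℕ} {u : ℂ}, n ∈ I → u ∈ V n → g u ∈ comp (D n) := by
    intro n u hn hu
    rw [hg]
    simp only
    rw [hlv_eq hu]
    exact hGm n hn (hsc_mem hu)
  have hm2 : ∀ u ∈ O1, g u ∈ O := by
    rintro u ⟨n, hn, hu⟩
    exact hsub _ (hgc hn hu)
  have hgh : ∀ z ∈ O, g (h z) = z := by
    intro z hz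
    rw [hg]
    simp only
    rw [hlv_eq (hhV z hz)]
    have h1 : sc (idx z) (h z) = Φ (idx z) z := by
      rw [hsc', hh]
      simp only
      rw [add_sub_cancel_left, mul_div_cancel_left₀ _ (hμne _)]
    rw [h1]
    exact hGP _ (hIidx z hz) z (hzc z hz)
  have hhg : ∀ u ∈ O1, h (g u) = u := by
    rintro u ⟨n, hn, hu⟩
    have h1 : idx (g u) = n := hI_idx hn (hgc hn hu)
    have h2 : g u = G n (sc n u) := by
      rw [hg]; simp only; rw [hlv_eq hu]
    rw [hh]
    simp only
    rw [h1, h2, hPG n hn _ (hsc_mem hu), hsc']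
    simp only
    rw [mul_div_cancel₀ _ (hμne n)]
    ring
  have hO1o : IsOpen O1 := by
    have : O1 = ⋃ n ∈ I, V n := by
      ext u
      simp [hO1]
    rw [this]
    exact isOpen_biUnion fun n _ => Metric.isOpen_ball
  have hhd : DifferentiableOn ℂ h O := by
    intro z hz
    apply DifferentiableAt.differentiableWithinAt
    have h1 : DifferentiableAt ℂ (Φ (idx z)) z :=
      (hΦd _ (hIidx z hz)).differentiableAt ((hopen _).mem_nhds (hzc z hz))
    have h2 : h =ᶠ[𝓝 z] fun y => (mu (idx z) : ℂ) + ((mu (idx z) / 2 : ℝ) : ℂ) * Φ (idx z) y := by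
      filter_upwards [(hopen z).mem_nhds (hself z hz)] with y hy
      rw [hh]
      simp only
      rw [hidx_comp hy]
    exact ((h1.const_mul _).const_add _).congr_of_eventuallyEq h2
  have hgd : DifferentiableOn ℂ g O1 := by
    rintro u ⟨n, hn, hu⟩
    apply DifferentiableAt.differentiableWithinAt
    have hscd : DifferentiableAt ℂ (sc n) u := by
      rw [hsc']
      simp only
      fun_prop
    have h1 : DifferentiableAt ℂ (G n) (sc n u) :=
      (hGd n hn).differentiableAt (Metric.isOpen_ball.mem_nhds (hsc_mem hu))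
    have h2 : g =ᶠ[𝓝 u] fun y => G n (sc n y) := by
      filter_upwards [Metric.isOpen_ball.mem_nhds hu] with y hy
      rw [hg]
      simp only
      rw [hlv_eq (show y ∈ V n from hy)]
    exact (DifferentiableAt.comp u h1 hscd).congr_of_eventuallyEq h2
  -- assemble
  refine ⟨{w : Fin 1 → ℂ | w 0 ∈ O1}, fun w _ => h (w 0), fun w _ => g (w 0),
    hO1o.preimage (continuous_apply 0), fun w hw => hm1 _ hw, fun w hw => hm2 _ hw, ?_, ?_, ?_, ?_,
    ⟨1, ?_⟩, ?_⟩
  · intro w hw
    change (fun _ : Fin 1 => g (h (w 0))) = w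
    rw [hgh _ hw]
    exact cst_eq' w
  · intro w hw
    change (fun _ : Fin 1 => h (g (w 0))) = w
    rw [hhg _ hw]
    exact cst_eq' w
  · intro w hw
    exact AnalyticAt.pi fun _ => analytic_lift hO hhd w hw
  · intro w hw
    exact AnalyticAt.pi fun _ => analytic_lift hO1o hgd w hw
  · intro w hw
    rw [pi_norm_le_iff_of_nonneg zero_le_one]
    intro i
    have h1 := (V_norm (hhV _ hw)).2
    have h2 := mu_le (idx (w 0))
    change ‖h (w 0)‖ ≤ 1
    linarith
  · intro q hq ⟨C, hC⟩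
    -- the function on the discs
    set qt : ℂ → ℂ := fun z => q (fun _ => z) with hqt
    have hqd : DifferentiableOn ℂ qt O := by
      intro z hz
      have h1 : DifferentiableAt ℂ q (fun _ : Fin 1 => z) := (hq (fun _ => z) hz).differentiableAt
      have h2 : DifferentiableAt ℂ (fun z : ℂ => (fun _ : Fin 1 => z)) z := by
        rw [differentiableAt_pi]
        intro _
        exact differentiableAt_id
      exact (DifferentiableAt.comp z h1 h2).differentiableWithinAt
    set Q : ℂ → ℂ := fun u => if u ∈ O1 then qt (g u) else 0 with hQ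
    have hQd : ∀ n, DifferentiableOn ℂ Q (V n) := by
      intro n
      by_cases hn : n ∈ I
      · have h1 : DifferentiableOn ℂ (fun u => qt (g u)) (V n) := by
          apply hqd.comp (hgd.mono fun u hu => ⟨n, hn, hu⟩)
          intro u hu
          exact hm2 u ⟨n, hn, hu⟩
        apply h1.congr
        intro u hu
        rw [hQ]
        simp only
        rw [if_pos ⟨n, hn, hu⟩]
      · have h1 : DifferentiableOn ℂ (fun _ : ℂ => (0 : ℂ)) (V n) := differentiableOn_const 0
        apply h1.congr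
        intro u hu
        rw [hQ]
        simp only
        rw [if_neg]
        rintro ⟨m, hm, hum⟩
        rw [V_disj _ _ u hum hu] at hm
        exact hn hm
    have hQC : ∀ n, ∀ u ∈ V n, ‖Q u‖ ≤ |C| := by
      intro n u hu
      rw [hQ]
      simp only
      by_cases hu1 : u ∈ O1
      · rw [if_pos hu1]
        exact (hC (fun _ => g u) (hm2 u hu1)).trans (le_abs_self C)
      · rw [if_neg hu1, norm_zero]
        positivity
    obtain ⟨P, C', hP1, hP2⟩ := approxV Q hQd _ hQC
    refine ⟨fun k => Polynomial.aeval (MvPolynomial.X 0 : MvPolynomial (Fin 1) ℂ) (P k), C', ?_, ?_⟩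
    · intro k w hw
      rw [evalXX]
      exact hP1 k _ _ (hhV _ hw)
    · intro w hw
      have h1 := hP2 _ _ (hhV _ hw)
      have h2 : Q (h (w 0)) = q w := by
        rw [hQ]
        simp only
        rw [if_pos (hm1 _ hw), hgh _ hw, hqt]
        simp only
        rw [cst_eq']
      rw [h2] at h1
      refine h1.congr fun k => ?_
      rw [evalXX]

end Pool.Agent.Helper34.Cp
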